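import Pool.Agent.SC63.FlipG

set_option autoImplicit false

/-!
# SC63/FlipC: commuting flips, counting the words with one more descent (abstract)
-/

namespace Pool.SC63

open Finset

section

variable {ι X : Type} [DecidableEq ι] (L : Finset X) (T0 : Finset ι) (σ : ι → X → X) (d : X → ℕ)
  (ε : ι → X → ℤ)

/-- number of up flips -/
def Uf (x : X) : ℕ := (T0.filter fun k => ε k x = 1).card

/-- number of down flips -/
def Df (x : X) : ℕ := (T0.filter fun k => ε k x = -1).card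

theorem Df_flip (k : ι) (hk : k ∈ T0) (x : X) (hx : ε k x = 1) (hy : ε k (σ k x) = -1)
    (hne : ∀ l ∈ T0, k ≠ l → ε l (σ k x) = ε l x) : Df T0 ε (σ k x) = Df T0 ε x + 1 := by
  unfold Df
  have h : (T0.filter fun l => ε l (σ k x) = -1) = insert k (T0.filter fun l => ε l x = -1) := by
    ext l
    rw [mem_insert, mem_filter, mem_filter]
    by_cases hl : l = k
    · subst hl
      simp [hk, hy]
    · constructor
      · rintro ⟨h1, h2⟩
        rw [hne l h1 (Ne.symm hl)] at h2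
        exact Or.inr ⟨h1, h2⟩
      · rintro (h1 | ⟨h1, h2⟩)
        · exact absurd h1 hl
        · exact ⟨h1, by rw [hne l h1 (Ne.symm hl)]; exact h2⟩
  rw [h, card_insert_of_notMem]
  rw [mem_filter, hx]
  exact fun h => absurd h.2 (by norm_num)

/-- (9): `w_(j+1) ≥ Σ_(L_j) U / (D + 1)` -/
theorem flip_count (hσ : ∀ k ∈ T0, ∀ x ∈ L, σ k x ∈ L) (hinv : ∀ k ∈ T0, ∀ x ∈ L, σ k (σ k x) = x)
    (hd : ∀ k ∈ T0, ∀ x ∈ L, (d (σ k x) : ℤ) = d x + ε k x)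
    (hεσ : ∀ k ∈ T0, ∀ x ∈ L, ε k (σ k x) = - ε k x)
    (hne : ∀ k ∈ T0, ∀ l ∈ T0, k ≠ l → ∀ x ∈ L, ε l (σ k x) = ε l x) (j : ℕ) :
    ∑ x ∈ L.filter (fun x => d x = j), (Uf T0 ε x : ℝ) / (Df T0 ε x + 1) ≤
      ((L.filter fun x => d x = j + 1).card : ℝ) := by
  have h1 : ∑ x ∈ L.filter (fun x => d x = j), (Uf T0 ε x : ℝ) / (Df T0 ε x + 1) =
      ∑ k ∈ T0, ∑ x ∈ (L.filter (fun x => d x = j)).filter (fun x => ε k x = 1),
        (1 : ℝ) / (Df T0 ε x + 1) := by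
    have h2 : ∀ x, (Uf T0 ε x : ℝ) / (Df T0 ε x + 1) =
        ∑ k ∈ T0, if ε k x = 1 then (1 : ℝ) / (Df T0 ε x + 1) else 0 := by
      intro x
      rw [← sum_filter, sum_const, nsmul_eq_mul, mul_one_div]
      rfl
    simp only [h2]
    rw [sum_comm]
    exact sum_congr rfl fun k _ => (sum_filter _ _).symm
  have h2 : ∀ k ∈ T0, ∑ x ∈ (L.filter (fun x => d x = j)).filter (fun x => ε k x = 1),
      (1 : ℝ) / (Df T0 ε x + 1) =
      ∑ y ∈ (L.filter (fun x => d x = j + 1)).filter (fun x => ε k x = -1), (1 : ℝ) / Df T0 ε y := by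
    intro k hk
    refine Finset.sum_nbij' (σ k) (σ k) ?_ ?_ ?_ ?_ ?_
    · intro x hx
      rw [mem_filter, mem_filter] at hx ⊢
      obtain ⟨⟨hx1, hx2⟩, hx3⟩ := hx
      have := hd k hk x hx1
      have h4 := hεσ k hk x hx1
      exact ⟨⟨hσ k hk x hx1, by omega⟩, by omega⟩
    · intro x hx
      rw [mem_filter, mem_filter] at hx ⊢
      obtain ⟨⟨hx1, hx2⟩, hx3⟩ := hx
      have := hd k hk x hx1
      have h4 := hεσ k hk x hx1
      exact ⟨⟨hσ k hk x hx1, by omega⟩, by omega⟩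
    · intro x hx
      rw [mem_filter, mem_filter] at hx
      exact hinv k hk x hx.1.1
    · intro x hx
      rw [mem_filter, mem_filter] at hx
      exact hinv k hk x hx.1.1
    · intro x hx
      rw [mem_filter, mem_filter] at hx
      have h4 := hεσ k hk x hx.1.1
      rw [Df_flip T0 σ ε k hk x hx.2 (by omega) (fun l hl hkl => hne k hk l hl hkl x hx.1.1)]
      push_cast
      rfl
  rw [h1, sum_congr rfl h2]
  have h2' : ∑ k ∈ T0, ∑ y ∈ (L.filter (fun x => d x = j + 1)).filter (fun x => ε k x = -1),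
      (1 : ℝ) / Df T0 ε y = ∑ k ∈ T0, ∑ y ∈ L.filter (fun x => d x = j + 1),
        if ε k y = -1 then (1 : ℝ) / Df T0 ε y else 0 :=
    sum_congr rfl fun k _ => sum_filter _ _
  rw [h2', sum_comm]
  have h3 : ∀ y ∈ L.filter (fun x => d x = j + 1),
      (∑ k ∈ T0, if ε k y = -1 then (1 : ℝ) / Df T0 ε y else 0) ≤ 1 := by
    intro y _
    rw [← sum_filter, sum_const, nsmul_eq_mul, mul_one_div]
    exact div_self_le_one _
  refine (sum_le_sum h3).trans ?_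
  rw [sum_const, nsmul_eq_mul, mul_one]

/-- (10), first half: the words with `U ≤ D + 1` -/
theorem flip_bad (r β c : ℝ) (hβ1 : 1 ≤ β) (hr0 : 0 ≤ r) (hr : β ^ 2 * r = 1)
    (hc : c * (1 + r) = 2 * β * r)
    (hσ : ∀ k ∈ T0, ∀ x ∈ L, σ k x ∈ L) (hinv : ∀ k ∈ T0, ∀ x ∈ L, σ k (σ k x) = x)
    (hd : ∀ k ∈ T0, ∀ x ∈ L, (d (σ k x) : ℤ) = d x + ε k x)
    (hεσ : ∀ k ∈ T0, ∀ x ∈ L, ε k (σ k x) = - ε k x)
    (hε : ∀ k ∈ T0, ∀ x ∈ L, ε k x = 1 ∨ ε k x = 0 ∨ ε k x = -1)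
    (hne : ∀ k ∈ T0, ∀ l ∈ T0, k ≠ l → ∀ x ∈ L, ε l (σ k x) = ε l x) (a : ℕ) :
    ∑ x ∈ L.filter (fun x => Uf T0 ε x ≤ Df T0 ε x + a), r ^ d x ≤
      β ^ a * ∑ x ∈ L, r ^ d x * ∏ l ∈ T0, c ^ (ε l x).natAbs := by
  have hβ : β ≠ 0 := by linarith
  have h1 := flip_all L T0 σ d ε r β c hβ hr hc hσ hinv hd hεσ hε hne T0 (Subset.refl _)
  rw [sdiff_self] at h1
  have h2 : ∑ x ∈ L, r ^ d x * ∏ l ∈ T0, c ^ (ε l x).natAbs =
      ∑ x ∈ L, r ^ d x * ∏ l ∈ T0, β ^ (- ε l x) := by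
    rw [← h1]
    exact sum_congr rfl fun x _ => by simp
  rw [h2, mul_sum]
  have h3 : ∀ x ∈ L, ∏ l ∈ T0, β ^ (- ε l x) = β ^ Df T0 ε x * (β⁻¹) ^ Uf T0 ε x := by
    intro x hx
    have h4 : ∀ l ∈ T0, β ^ (- ε l x) =
        (if ε l x = -1 then β else 1) * (if ε l x = 1 then β⁻¹ else 1) := by
      intro l hl
      rcases hε l hl x hx with h | h | h <;> rw [h] <;> simp
    rw [prod_congr rfl h4, prod_mul_distrib, ← prod_filter, ← prod_filter, prod_const, prod_const]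
    rfl
  have hβ0 : 0 < β := by linarith
  have h5 : ∀ x ∈ L, 0 ≤ β ^ a * (r ^ d x * ∏ l ∈ T0, β ^ (- ε l x)) := by
    intro x hx
    rw [h3 x hx]
    positivity
  refine (sum_le_sum fun x hx => ?_).trans
    (sum_le_sum_of_subset_of_nonneg (filter_subset _ _) fun x hx _ => h5 x hx)
  rw [mem_filter] at hx
  rw [h3 x hx.1]
  have h6 : 1 ≤ β ^ a * (β ^ Df T0 ε x * (β⁻¹) ^ Uf T0 ε x) := by
    rw [← mul_assoc, ← pow_add, inv_pow, ← div_eq_mul_inv, one_le_div (by positivity)]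
    exact pow_le_pow_right₀ hβ1 (by omega)
  calc r ^ d x = r ^ d x * 1 := (mul_one _).symm
    _ ≤ r ^ d x * (β ^ a * (β ^ Df T0 ε x * (β⁻¹) ^ Uf T0 ε x)) :=
        mul_le_mul_of_nonneg_left h6 (pow_nonneg hr0 _)
    _ = _ := by ring

end

end Pool.SC63
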