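import Mathlib

set_option autoImplicit false

/-!
# SC63/FlipG: commuting flips and a tilted count (abstract)
-/

namespace Pool.SC63

open Finset

section

variable {ι X : Type} [DecidableEq ι] (L : Finset X) (T0 : Finset ι) (σ : ι → X → X) (d : X → ℕ)
  (ε : ι → X → ℤ)

/-- one flip: the factor `β^(-ε)` may be replaced by `c^|ε|` -/
theorem flip_one (r β c : ℝ) (hβ : β ≠ 0) (hr : β ^ 2 * r = 1) (hc : c * (1 + r) = 2 * β * r)
    (k : ι) (hσ : ∀ x ∈ L, σ k x ∈ L) (hinv : ∀ x ∈ L, σ k (σ k x) = x)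
    (hd : ∀ x ∈ L, (d (σ k x) : ℤ) = d x + ε k x) (hεσ : ∀ x ∈ L, ε k (σ k x) = - ε k x)
    (hε : ∀ x ∈ L, ε k x = 1 ∨ ε k x = 0 ∨ ε k x = -1)
    (G : X → ℝ) (hG : ∀ x ∈ L, G (σ k x) = G x) :
    ∑ x ∈ L, r ^ d x * (G x * β ^ (- ε k x)) = ∑ x ∈ L, r ^ d x * (G x * c ^ (ε k x).natAbs) := by
  have hsym : ∀ F : X → ℝ, ∑ x ∈ L, F x = ∑ x ∈ L, F (σ k x) := fun F =>
    Finset.sum_nbij' (σ k) (σ k) hσ hσ hinv hinv (fun x hx => by rw [hinv x hx])
  have h2 : ∀ F : X → ℝ, 2 * ∑ x ∈ L, F x = ∑ x ∈ L, (F x + F (σ k x)) := fun F => by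
    rw [sum_add_distrib, ← hsym F, two_mul]
  have h3 : 2 * ∑ x ∈ L, r ^ d x * (G x * β ^ (- ε k x)) =
      2 * ∑ x ∈ L, r ^ d x * (G x * c ^ (ε k x).natAbs) := by
    rw [h2 fun x => r ^ d x * (G x * β ^ (- ε k x)), h2 fun x => r ^ d x * (G x * c ^ (ε k x).natAbs)]
    refine sum_congr rfl fun x hx => ?_
    rw [hG x hx, hεσ x hx]
    have hdx := hd x hx
    have hr' : β * (β * r) = 1 := by rw [← mul_assoc, ← pow_two]; exact hr
    have hb : β⁻¹ = β * r := by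
      rw [inv_eq_iff_eq_inv, eq_comm, inv_eq_iff_eq_inv]
      exact eq_inv_of_mul_eq_one_right hr'
    rcases hε x hx with h | h | h
    · have e : d (σ k x) = d x + 1 := by omega
      rw [h, e]
      simp only [Int.natAbs_one, neg_neg, zpow_one, zpow_neg, pow_one, Int.natAbs_neg]
      rw [hb, pow_succ]
      linear_combination (-(r ^ d x * G x)) * hc
    · have e : d (σ k x) = d x := by omega
      rw [h, e]
      simp
    · have e : d x = d (σ k x) + 1 := by omega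
      rw [h, e]
      simp only [Int.natAbs_one, neg_neg, zpow_one, zpow_neg, pow_one, Int.natAbs_neg]
      rw [hb, pow_succ]
      linear_combination (-(r ^ d (σ k x) * G x)) * hc
  linarith

/-- all flips -/
theorem flip_all (r β c : ℝ) (hβ : β ≠ 0) (hr : β ^ 2 * r = 1) (hc : c * (1 + r) = 2 * β * r)
    (hσ : ∀ k ∈ T0, ∀ x ∈ L, σ k x ∈ L) (hinv : ∀ k ∈ T0, ∀ x ∈ L, σ k (σ k x) = x)
    (hd : ∀ k ∈ T0, ∀ x ∈ L, (d (σ k x) : ℤ) = d x + ε k x)
    (hεσ : ∀ k ∈ T0, ∀ x ∈ L, ε k (σ k x) = - ε k x)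
    (hε : ∀ k ∈ T0, ∀ x ∈ L, ε k x = 1 ∨ ε k x = 0 ∨ ε k x = -1)
    (hne : ∀ k ∈ T0, ∀ l ∈ T0, k ≠ l → ∀ x ∈ L, ε l (σ k x) = ε l x)
    (T : Finset ι) (hT : T ⊆ T0) :
    ∑ x ∈ L, r ^ d x * ((∏ l ∈ T0 \ T, β ^ (- ε l x)) * ∏ l ∈ T, c ^ (ε l x).natAbs) =
      ∑ x ∈ L, r ^ d x * ∏ l ∈ T0, β ^ (- ε l x) := by
  induction T using Finset.induction_on with
  | empty => simp
  | insert k T hk ih =>
    have hk0 : k ∈ T0 := hT (mem_insert_self _ _)
    have hT0 : T ⊆ T0 := (subset_insert _ _).trans hT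
    rw [← ih hT0]
    have h := flip_one L σ d ε r β c hβ hr hc k (hσ k hk0) (hinv k hk0) (hd k hk0) (hεσ k hk0)
      (hε k hk0) (fun x => (∏ l ∈ T0 \ insert k T, β ^ (- ε l x)) * ∏ l ∈ T, c ^ (ε l x).natAbs)
      (fun x hx => by
        congr 1
        · refine prod_congr rfl fun l hl => ?_
          rw [mem_sdiff, mem_insert, not_or] at hl
          rw [hne k hk0 l hl.1 (Ne.symm hl.2.1) x hx]
        · refine prod_congr rfl fun l hl => ?_
          rw [hne k hk0 l (hT0 hl) (fun h => hk (h ▸ hl)) x hx])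
    have e : T0 \ T = insert k (T0 \ insert k T) := by
      ext l
      rw [mem_insert, mem_sdiff, mem_sdiff, mem_insert, not_or]
      constructor
      · rintro ⟨h1, h2⟩
        by_cases h3 : l = k
        · exact Or.inl h3
        · exact Or.inr ⟨h1, h3, h2⟩
      · rintro (rfl | ⟨h1, -, h2⟩)
        · exact ⟨hk0, hk⟩
        · exact ⟨h1, h2⟩
    have hk' : k ∉ T0 \ insert k T := by
      rw [mem_sdiff]
      exact fun h => h.2 (mem_insert_self _ _)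
    rw [e]
    rw [show (∑ x ∈ L, r ^ d x * ((∏ l ∈ insert k (T0 \ insert k T), β ^ (- ε l x)) *
      ∏ l ∈ T, c ^ (ε l x).natAbs)) = ∑ x ∈ L, r ^ d x *
        (((∏ l ∈ T0 \ insert k T, β ^ (- ε l x)) * ∏ l ∈ T, c ^ (ε l x).natAbs) * β ^ (- ε k x)) from
      sum_congr rfl fun x _ => by rw [prod_insert hk']; ring]
    rw [h]
    refine sum_congr rfl fun x _ => ?_
    rw [prod_insert hk]
    ring

end

end Pool.SC63
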