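import Pool.Agent.HB45.Defs

set_option autoImplicit false

/-!
# SC63/Fund: the count of order preserving maps by words
-/

namespace Pool.SC63

open Finset Pool.HB45

/-- strictly increasing maps -/
theorem card_strictMono_fin (k n : ℕ) :
    ((Finset.univ : Finset (Fin k → Fin n)).filter (fun f => StrictMono f)).card = n.choose k := by
  classical
  have h : (Finset.powersetCard k (Finset.univ : Finset (Fin n))).card = n.choose k := by simp
  rw [← h]
  refine Finset.card_bij (fun f _ => Finset.univ.image f) ?_ ?_ ?_
  · intro f hf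
    rw [mem_filter] at hf
    rw [mem_powersetCard]
    refine ⟨subset_univ _, ?_⟩
    rw [card_image_of_injective _ hf.2.injective, card_univ, Fintype.card_fin]
  · intro f hf g hg hfg
    rw [mem_filter] at hf hg
    have hc : (Finset.univ.image f).card = k := by
      rw [card_image_of_injective _ hf.2.injective, card_univ, Fintype.card_fin]
    rw [Finset.orderEmbOfFin_unique hc (f := f) (fun x => mem_image_of_mem _ (mem_univ _)) hf.2]
    rw [Finset.orderEmbOfFin_unique hc (f := g) (fun x => by
      rw [hfg]; exact mem_image_of_mem _ (mem_univ _)) hg.2]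
  · intro s hs
    rw [mem_powersetCard] at hs
    refine ⟨s.orderEmbOfFin hs.2, ?_, ?_⟩
    · rw [mem_filter]
      exact ⟨mem_univ _, (s.orderEmbOfFin hs.2).strictMono⟩
    · simp

/-- number of non-descents before `i` -/
def cc {N : ℕ} (D : Finset (Fin N)) (i : Fin (N + 1)) : ℕ :=
  (Finset.univ.filter fun p : Fin N => p ∉ D ∧ p.castSucc < i).card

theorem cc_le {N : ℕ} (D : Finset (Fin N)) (i : Fin (N + 1)) : cc D i ≤ N - D.card := by
  unfold cc
  have h : (Finset.univ.filter fun p : Fin N => p ∉ D ∧ p.castSucc < i) ⊆ Dᶜ := by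
    intro p hp
    rw [mem_filter] at hp
    rw [mem_compl]
    exact hp.2.1
  have h2 := card_le_card h
  rwa [card_compl, Fintype.card_fin] at h2

theorem cc_last {N : ℕ} (D : Finset (Fin N)) : cc D (Fin.last N) = N - D.card := by
  unfold cc
  have h : (Finset.univ.filter fun p : Fin N => p ∉ D ∧ p.castSucc < Fin.last N) = Dᶜ := by
    ext p
    rw [mem_filter, mem_compl]
    exact ⟨fun h => h.2.1, fun h => ⟨mem_univ _, h, Fin.castSucc_lt_last p⟩⟩
  rw [h, card_compl, Fintype.card_fin]

theorem cc_succ {N : ℕ} (D : Finset (Fin N)) (p : Fin N) :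
    cc D p.succ = cc D p.castSucc + (if p ∈ D then 0 else 1) := by
  classical
  unfold cc
  by_cases hp : p ∈ D
  · rw [if_pos hp, add_zero]
    congr 1
    ext r
    rw [mem_filter, mem_filter]
    refine and_congr_right fun _ => and_congr_right fun hr => ?_
    rw [Fin.lt_def, Fin.lt_def]
    have : r ≠ p := fun h => hr (h ▸ hp)
    have h2 : r.val ≠ p.val := fun h => this (Fin.ext h)
    simp only [Fin.val_castSucc, Fin.val_succ]
    omega
  · rw [if_neg hp]
    have h : (Finset.univ.filter fun r : Fin N => r ∉ D ∧ r.castSucc < p.succ) =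
        insert p (Finset.univ.filter fun r : Fin N => r ∉ D ∧ r.castSucc < p.castSucc) := by
      ext r
      rw [mem_insert, mem_filter, mem_filter, Fin.lt_def, Fin.lt_def]
      simp only [Fin.val_castSucc, Fin.val_succ]
      constructor
      · rintro ⟨_, h1, h2⟩
        by_cases h3 : r = p
        · exact Or.inl h3
        · have h4 : r.val ≠ p.val := fun h => h3 (Fin.ext h)
          exact Or.inr ⟨mem_univ _, h1, by omega⟩
      · rintro (rfl | ⟨_, h1, h2⟩)
        · exact ⟨mem_univ _, hp, by omega⟩
        · exact ⟨mem_univ _, h1, by omega⟩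
    rw [h, card_insert_of_notMem]
    rw [mem_filter]
    exact fun h => lt_irrefl _ h.2.2

/-- weakly increasing, strictly at the positions in `D` -/
def Inc {N M : ℕ} (D : Finset (Fin N)) (u : Fin (N + 1) → Fin M) : Prop :=
  ∀ p : Fin N, u p.castSucc ≤ u p.succ ∧ (p ∈ D → u p.castSucc < u p.succ)

theorem card_inc {N : ℕ} (M : ℕ) (D : Finset (Fin N)) :
    Nat.card {u : Fin (N + 1) → Fin M // Inc D u} = (M + N - D.card).choose (N + 1) := by
  classical
  rw [← card_strictMono_fin, ← Fintype.card_subtype, ← Nat.card_eq_fintype_card]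
  have hD : D.card ≤ N := by
    have := card_le_univ D
    rwa [Fintype.card_fin] at this
  have key : ∀ v : Fin (N + 1) → Fin (M + N - D.card), StrictMono v →
      (∀ i, cc D i ≤ (v i).val) ∧ (∀ i, (v i).val - cc D i < M) ∧
      (∀ p : Fin N, (v p.castSucc).val - cc D p.castSucc + (if p ∈ D then 1 else 0) ≤
        (v p.succ).val - cc D p.succ) := by
    intro v hv
    have h1 : ∀ i, cc D i ≤ (v i).val := by
      intro i
      induction i using Fin.induction with
      | zero =>
        have : cc D 0 = 0 := by
          unfold cc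
          rw [card_eq_zero, filter_eq_empty_iff]
          intro p _ h
          exact absurd h.2 (Fin.not_lt_zero _)
        omega
      | succ p ih =>
        have h2 := hv (Fin.castSucc_lt_succ (i := p))
        rw [Fin.lt_def] at h2
        have h3 := cc_succ D p
        split_ifs at h3 <;> omega
    have h2 : ∀ p : Fin N, (v p.castSucc).val - cc D p.castSucc + (if p ∈ D then 1 else 0) ≤
        (v p.succ).val - cc D p.succ := by
      intro p
      have h2 := hv (Fin.castSucc_lt_succ (i := p))
      rw [Fin.lt_def] at h2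
      have h3 := cc_succ D p
      have h4 := h1 p.castSucc
      have h5 := h1 p.succ
      split_ifs at h3 ⊢ <;> omega
    refine ⟨h1, ?_, h2⟩
    have hm : Monotone fun i : Fin (N + 1) => (v i).val - cc D i := by
      rw [Fin.monotone_iff_le_succ]
      intro p
      have := h2 p
      split_ifs at this <;> omega
    intro i
    have h3 := hm (Fin.le_last i)
    simp only at h3
    have h4 := (v (Fin.last N)).isLt
    have h5 := cc_last D
    have h6 := h1 (Fin.last N)
    omega
  refine Nat.card_congr
    { toFun := fun u => ⟨fun i => ⟨(u.1 i).val + cc D i, ?_⟩, ?_⟩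
      invFun := fun v => ⟨fun i => ⟨(v.1 i).val - cc D i, (key v.1 v.2).2.1 i⟩, ?_⟩
      left_inv := fun u => ?_
      right_inv := fun v => ?_ }
  · have h1 := (u.1 i).isLt
    have h2 := cc_le D i
    omega
  · rw [Fin.strictMono_iff_lt_succ]
    intro p
    rw [Fin.lt_def]
    simp only
    have h1 := (u.2 p).1
    have h2 := (u.2 p).2
    rw [Fin.le_def] at h1
    rw [Fin.lt_def] at h2
    have h3 := cc_succ D p
    split_ifs at h3 with h4
    · have := h2 h4
      omega
    · omega
  · intro p
    have h1 := (key v.1 v.2).2.2 p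
    rw [Fin.le_def, Fin.lt_def]
    simp only
    refine ⟨by omega, fun h => ?_⟩
    rw [if_pos h] at h1
    omega
  · apply Subtype.ext
    funext i
    apply Fin.ext
    simp
  · apply Subtype.ext
    funext i
    apply Fin.ext
    simp only
    have := (key v.1 v.2).1 i
    omega

/-- weakly order preserving maps -/
noncomputable def Mp {n : ℕ} (Q : Rel n) (M : ℕ) : Finset (Fin n → Fin M) := by
  classical
  exact Finset.univ.filter fun f => ∀ a b, Q a b → f a ≤ f b

theorem mem_Mp {n : ℕ} {Q : Rel n} {M : ℕ} {f : Fin n → Fin M} :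
    f ∈ Mp Q M ↔ ∀ a b, Q a b → f a ≤ f b := by
  classical
  unfold Mp
  simp

/-- the word of a map: sort by value, ties by label -/
def word {n M : ℕ} (lab : Fin n → ℕ) (f : Fin n → Fin M) : Equiv.Perm (Fin n) :=
  Tuple.sort fun a => toLex (f a, lab a)

/-- descent set -/
def DS {N : ℕ} (lab : Fin (N + 1) → ℕ) (g : Equiv.Perm (Fin (N + 1))) : Finset (Fin N) :=
  Finset.univ.filter fun i : Fin N => lab (g i.succ) < lab (g i.castSucc)

theorem word_eq_iff {N M : ℕ} {lab : Fin (N + 1) → ℕ} (hl : Function.Injective lab)
    (f : Fin (N + 1) → Fin M) (g : Equiv.Perm (Fin (N + 1))) :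
    word lab f = g ↔ Inc (DS lab g) (fun i => f (g i)) := by
  constructor
  · rintro rfl p
    have h := Tuple.monotone_sort (fun a => toLex (f a, lab a)) (Fin.castSucc_le_succ p)
    change toLex (f (word lab f p.castSucc), lab (word lab f p.castSucc)) ≤
      toLex (f (word lab f p.succ), lab (word lab f p.succ)) at h
    rw [Prod.Lex.toLex_le_toLex] at h
    simp only at h
    constructor
    · rcases h with h | h
      · exact h.le
      · exact h.1.le
    · intro hp
      rw [DS, mem_filter] at hp
      rcases h with h | h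
      · exact h
      · exact absurd h.2 (not_le.2 hp.2)
  · intro h
    have hs : StrictMono ((fun a => toLex (f a, lab a)) ∘ g) := by
      rw [Fin.strictMono_iff_lt_succ]
      intro p
      change toLex (f (g p.castSucc), lab (g p.castSucc)) < toLex (f (g p.succ), lab (g p.succ))
      rw [Prod.Lex.toLex_lt_toLex]
      simp only
      rcases (h p).1.lt_or_eq with h1 | h1
      · exact Or.inl h1
      · refine Or.inr ⟨h1, ?_⟩
        have h2 : ¬ (p ∈ DS lab g) := fun h3 => absurd ((h p).2 h3) (by
          simp only at h1 ⊢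
          rw [h1]
          exact lt_irrefl _)
        rw [DS, mem_filter] at h2
        push Not at h2
        refine lt_of_le_of_ne (h2 (mem_univ _)) fun h3 => ?_
        have h4 := g.injective (hl h3)
        exact absurd h4 (Fin.castSucc_lt_succ (i := p)).ne
    symm
    unfold word
    rw [Tuple.eq_sort_iff]
    refine ⟨hs.monotone, fun i j hij h1 => ?_⟩
    exact absurd h1 (hs hij).ne

theorem word_mem {N M : ℕ} {Q : Rel (N + 1)} {lab : Fin (N + 1) → ℕ} (hn : Nat' Q lab)
    {f : Fin (N + 1) → Fin M} (hf : f ∈ Mp Q M) : word lab f ∈ LE Q := by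
  rw [mem_LE]
  intro i j hq
  rw [mem_Mp] at hf
  by_contra hij
  push Not at hij
  have h := Tuple.monotone_sort (fun a => toLex (f a, lab a)) hij
  change toLex (f (word lab f j), lab (word lab f j)) ≤
    toLex (f (word lab f i), lab (word lab f i)) at h
  rw [Prod.Lex.toLex_le_toLex] at h
  simp only at h
  have h1 := hf _ _ hq
  have h2 := hn.mono _ _ hq
  rcases h with h | h
  · exact absurd h (not_lt.2 h1)
  · exact absurd h.2 (not_le.2 h2)

/-- maps with a given word -/
theorem card_word {N : ℕ} (M : ℕ) {Q : Rel (N + 1)} {lab : Fin (N + 1) → ℕ} (hn : Nat' Q lab)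
    {g : Equiv.Perm (Fin (N + 1))} (hg : g ∈ LE Q) :
    ((Mp Q M).filter fun f => word lab f = g).card = (M + N - des lab g).choose (N + 1) := by
  classical
  have h1 : des lab g = (DS lab g).card := rfl
  rw [h1, ← card_inc, ← Fintype.card_coe, ← Nat.card_eq_fintype_card]
  refine Nat.card_congr
    { toFun := fun f => ⟨fun i => f.1 (g i), ?_⟩
      invFun := fun u => ⟨fun a => u.1 (g.symm a), ?_⟩
      left_inv := fun f => ?_
      right_inv := fun u => ?_ }
  · have := f.2
    rw [mem_filter, word_eq_iff hn.inj] at this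
    exact this.2
  · rw [mem_filter, word_eq_iff hn.inj, mem_Mp]
    refine ⟨fun a b hab => ?_, ?_⟩
    · have hm : Monotone u.1 := by
        rw [Fin.monotone_iff_le_succ]
        exact fun p => (u.2 p).1
      apply hm
      rw [mem_LE] at hg
      exact (hg (g.symm a) (g.symm b) (by simpa using hab)).le
    · have : (fun i => (fun a => u.1 (g.symm a)) (g i)) = u.1 := by
        funext i
        simp
      rw [this]
      exact u.2
  · apply Subtype.ext
    funext a
    simp
  · apply Subtype.ext
    funext i
    simp

/-- FUND: the number of weakly order preserving maps with word in `G`. -/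
theorem fund {N : ℕ} (M : ℕ) {Q : Rel (N + 1)} {lab : Fin (N + 1) → ℕ} (hn : Nat' Q lab)
    (G : Equiv.Perm (Fin (N + 1)) → Prop) [DecidablePred G] :
    ((Mp Q M).filter fun f => G (word lab f)).card =
      ∑ g ∈ (LE Q).filter G, (M + N - des lab g).choose (N + 1) := by
  classical
  rw [Finset.card_eq_sum_card_fiberwise (f := word lab) (t := (LE Q).filter G)]
  · refine sum_congr rfl fun g hg => ?_
    rw [mem_filter] at hg
    rw [← card_word M hn hg.1, filter_filter]
    congr 1
    ext f
    rw [mem_filter, mem_filter]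
    refine and_congr_right fun _ => ⟨fun h => h.2, fun h => ⟨h ▸ hg.2, h⟩⟩
  · intro f hf
    rw [coe_filter, Set.mem_setOf_eq] at hf
    rw [coe_filter, Set.mem_setOf_eq]
    exact ⟨word_mem hn hf.1, hf.2⟩

/-- weighted form -/
theorem fund_weight {N : ℕ} (M : ℕ) {Q : Rel (N + 1)} {lab : Fin (N + 1) → ℕ} (hn : Nat' Q lab)
    (φ : Equiv.Perm (Fin (N + 1)) → ℝ) :
    ∑ f ∈ Mp Q M, φ (word lab f) =
      ∑ g ∈ LE Q, φ g * ((M + N - des lab g).choose (N + 1) : ℕ) := by
  classical
  rw [← Finset.sum_fiberwise_of_maps_to (g := word lab) (t := LE Q)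
    (fun f hf => word_mem hn hf)]
  refine sum_congr rfl fun g hg => ?_
  rw [← card_word M hn hg]
  rw [Finset.sum_congr rfl (g := fun _ => φ g) (fun f hf => by rw [(mem_filter.1 hf).2])]
  rw [sum_const, nsmul_eq_mul, mul_comm]

end Pool.SC63
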