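import Pool.Agent.SC45.Defs
import Pool.Agent.SC63.Fund

set_option autoImplicit false

/-!
# SC63/OmEq: order polynomial and descents
-/

namespace Pool.SC63

open Pool.HB45 Pool.SC45

theorem Om_eq' {N : ℕ} {Q : Rel (N + 1)} {lab : Fin (N + 1) → ℕ} (hn : Nat' Q lab) (m : ℕ) :
    Om Q m = ∑ g ∈ LE Q, (m + N + 1 - des lab g).choose (N + 1) := by
  classical
  have h := fund (m + 1) hn (fun _ => True)
  rw [Finset.filter_true, Finset.filter_true] at h
  have h2 : Om Q m = (Mp Q (m + 1)).card := by
    unfold Om Mp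
    congr!
  rw [h2, h]
  refine Finset.sum_congr rfl fun g _ => ?_
  congr 2
  omega

end Pool.SC63
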